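import Pool.Agent.U192.PE.Eff

/-!
# Effective nonvanishing and effective growth for the pairs dominated by `X × Y`, `κ(Y) = ν(Y) = 0`

Let `X` and `Y` be projective varieties over `ℂ`, `dim X = d`, `dim Y = r + 1 ≥ 1`, and `Δ_Y` the
boundary of a log canonical pair `(Y, Δ_Y)` with `ν(K_Y + Δ_Y) = 0` and `h⁰ (Y, N₀ (K_Y + Δ_Y)) ≠ 0`, for
a number `N₀ ≥ 1`. For instance `N₀ = 1` for an abelian variety, a `K3` surface, a Calabi-Yau or a
hyperkähler manifold, for a toric variety with its boundary, and for any
compactification, with reduced boundary, of a semi-abelian variety; `N₀ = 2` for an Enriques surface.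
Let `f i : X ⇢ ℙ^{N i}`, `i < k`, be rational maps such that `X` is mapped
birationally into the product of the projective spaces, and let `H i` be the pull-back of a hyperplane
to a model of `X`. For instance `k = 1` and `X ⊆ ℙ^N`.

Let `f : V = X × Y ⇢ W` be a dominant rational map of finite degree `deg f` to any variety `W`. It need
not be compatible with the projections, and it need not be a Galois cover. Let `W_i` be the image of `V`
in `W × ℙ^{N 0} × ... × ℙ^{N (i - 1)}` and let `δ i` be the degree of `W_{i + 1}` over `W_i`. Let `Δ` be an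
effective `ℝ`-divisor on `W` (given by its multiplicities `δ P ≥ 0` at all prime divisors `P` over `W`,
for instance `δ P = max (0, - a(P, W, Δ))`), such that the positive part `Δ_V` of the divisor
`Δ' = f^* Δ - R` on `V`, where `K_V + Δ' = f^* (K_W + Δ)`, is at most the product `X × Δ_Y` over the
generic point of `X` (if `Δ_Y = 0` and `Δ = 0` this is no condition). Put

  `D_X = K_X - 2 ∑ (δ i - 1) H i`.

**Theorem.** Suppose that `K_W + Δ` is pseudo-effective (i.e. its numerical dimension is not `-∞`).
Then, for all `m ≥ 1`,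

  `h⁰ (W, m N₀ (deg f) (K_W + Δ)) ≥ h⁰ (X, m N₀ D_X)`.

Moreover, if `κ(X) ≥ 0`, then for every divisor `A` on `X` there is a divisor `A'` on `W`, which does
not depend on `Δ`, such that, for all `m ≥ 1`,

  `h⁰ (W, m N₀ (deg f) (K_W + Δ) + A') ≥ h⁰ (X, m N₀ D_X + A)`.

So the abundance of these pairs (`κ(K_W + Δ) = ν(K_W + Δ) = dim X` if `D_X` is big, which is the theorem
of `MP_2c56d9_ag.LogProductImages`) holds with explicit constants: a pseudo-effective `K_W + Δ` has a
section in the explicit multiple `N₀ (deg f)` as soon as `N₀ D_X` has one, and the number of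
sections of `m N₀ (deg f) (K_W + Δ)` is at least `vol (D_X) (m N₀)^d / d!` up to lower order. In
particular the index and the Iitaka volume of the pair are bounded in terms of `X`, `N₀` and the
degrees only: they do not depend on `W`, nor on the ramification divisor of `f`, which is not
bounded by the degree. If `D_X` is not big then the theorem still gives
`κ(K_W + Δ) ≥ κ(D_X)` in the sense of the growth of sections, and `ν(K_W + Δ) ≥ ν(D_X)` if `κ(X) ≥ 0`.

Example. Let `X ⊆ ℙ^{d + 1}` be a smooth hypersurface of degree `D = d + 2 δ`, let `Y` be an abelian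
variety, and let `X × Y ⇢ W` be any dominant rational map of degree `δ`. If `K_W` is pseudo-effective
then `δ K_W` has a nonzero section. If `D > d + 2 δ` then `P_{m δ} (W) ≥ h⁰ (X, O (m (D - d - 2 δ)))` for
all `m ≥ 1`. (The examples are not part of the Lean proof.)

Proof. Let `α` be a section of `m N₀ D_X + A` and `η` one of `N₀ (K_Y + Δ_Y)`. Since `K_W + Δ` is
pseudo-effective and the fibres have numerical dimension `0`, the form `α ⊠ η ^ m` vanishes along the
ramification divisor of `f` over the generic point of `X` to the order of a section of the pull-back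
of `m N₀ (K_W + Δ)`; this order depends only on `m` and `η`. So the norm of `α ⊠ η ^ m`, multiplied by
a power of the discriminant of a basis of monomials, is a section of
`m N₀ (deg f) (K_W + Δ) + A'`. The norms of the linear combinations of `N` linearly independent
functions span a space of dimension at least `N`.
-/

set_option autoImplicit false
set_option linter.overlappingInstances false

open FF Module Pool.Agent.W602.GT
open Pool.Agent.W619.TW (HasIndep)
open Pool.Agent.Y174 (PairSec PairNum)

namespace Pool.Agent.Results.MP_e23cd6_ag.EffectiveProductImages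

/-- The order of the poles along `P` of the functions in the finite set `Y`: the multiplicity along `P`
of the pull-back of a hyperplane under the rational map with the coordinates `1` and `Y`. -/
noncomputable def poleOrder {U : Type} [Field U] [Algebra ℂ U] (Y : Finset U) (P : Place ℂ U) : ℕ :=
  Y.sup fun z => (-P.ord z).toNat

/-- The functions on `X` as functions on `V = X × Y`. -/
def onV {L : Type} [Field L] [Algebra ℂ L] {U : IntermediateField ℂ L} (Y : Finset U) : Finset L :=
  Y.map (Function.Embedding.subtype fun z => z ∈ U)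

/-- The function field of the image `W_j` of `V` in the product of `W` and the first `j` projective
spaces. `K` and `L` are the function fields of `W` and `V`, and `X i` is the set of the affine
coordinates of the `i`-th rational map. -/
def Img {L : Type} [Field L] [Algebra ℂ L] {U : IntermediateField ℂ L} (K : Type) [Field K]
    [Algebra K L] {k : ℕ} (X : Fin k → Finset U) (j : ℕ) : IntermediateField K L :=
  IntermediateField.adjoin K {z | ∃ i : Fin k, i.val < j ∧ z ∈ onV (X i)}

/-- The degree `δ i` of `W_{i + 1}` over `W_i`. -/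
noncomputable def deg {L : Type} [Field L] [Algebra ℂ L] {U : IntermediateField ℂ L} (K : Type)
    [Field K] [Algebra K L] {k : ℕ} (X : Fin k → Finset U) (i : Fin k) : ℕ :=
  finrank (Img K X i) (IntermediateField.adjoin (Img K X i) (onV (X i) : Set L))

/-- `θ` is a section of `m D_X + A = m (K_X - 2 ∑ (δ i - 1) H i) + A`, where `U` is the function field
of the variety `X`, of dimension `d`, and `-A` is generated by the finite set `S` of functions (for
`S = {1}` this is `A = 0`): the order of the `m`-canonical form `θ` along each prime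
divisor `P` over `X` is at least `2 m ∑ (δ i - 1) (H i)_P + P (s)`, for some `s ≠ 0` in `S`. -/
def IsSection (K : Type) {L : Type} [Field K] [Field L] [Algebra K L] [Algebra ℂ L]
    {U : IntermediateField ℂ L} (d m : ℕ) {k : ℕ} (X : Fin k → Finset U) (S : Finset U)
    (θ : (Fin d → Derivation ℂ U U) → U) : Prop :=
  IsPluri m θ ∧ ∀ P : Place ℂ U, Divisorial d P → ∀ G : Fin d → Derivation ℂ U U,
    (∀ i, DerReg P (G i)) → θ G = 0 ∨ ∃ s ∈ S, s ≠ 0 ∧
      ∑ i, 2 * (m : ℤ) * ((deg K X i : ℤ) - 1) * poleOrder (X i) P + P.ord s ≤ P.ord (θ G)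

/-- `κ(X) ≥ 0`: there is a nonzero section of `m K_X` for some `m ≥ 1`. -/
def HasPluriForm (U : Type) [Field U] [Algebra ℂ U] (d : ℕ) : Prop :=
  ∃ (m : ℕ) (θ : (Fin d → Derivation ℂ U U) → U), 1 ≤ m ∧ IsPluri m θ ∧
    (∀ P : Place ℂ U, Divisorial d P → ∀ G : Fin d → Derivation ℂ U U,
      (∀ i, DerReg P (G i)) → θ G ≠ 0 → 0 ≤ P.ord (θ G)) ∧ ∃ D, θ D ≠ 0

/-- `Q` lies over `P` with the ramification index `e`. -/
def LiesOver {K L : Type} [Field K] [Field L] [Algebra ℂ K] [Algebra ℂ L] [Algebra K L]
    (Q : Place ℂ L) (P : Place ℂ K) (e : ℕ) : Prop :=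
  0 < e ∧ ∀ f : K, Q.ord (algebraMap K L f) = e * P.ord f

/-- `Δ_V` is the positive part of the divisor `Δ'` with `K_V + Δ' = f^* (K_W + Δ)`. The multiplicity
of `Δ` at a prime divisor `P` over `W` is `δ P`. -/
def IsPullBack {K L : Type} [Field K] [Field L] [Algebra ℂ K] [Algebra ℂ L] [Algebra K L]
    (δ : Place ℂ K → ℝ) (δV : Place ℂ L → ℝ) : Prop :=
  ∀ (P : Place ℂ K) (Q : Place ℂ L) (e : ℕ), LiesOver Q P e → δV Q = max 0 (1 - e * (1 - δ P))

/-- The divisor `Δ_V` on `V = X × Y`, of dimension `n`, is at most the product `X × Δ_Y` over the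
generic point of `X`. `U` and `T` are the function fields of `X` and `Y`. Let `Q` be a prime divisor
over `V` which is mapped onto `X`. If it is mapped onto `Y`, too, then the multiplicity of `Δ_V` is at
most `0`, and if it lies over the prime divisor `P` over `Y` with the ramification index `e` then the
multiplicity is at most the one of the positive part of the pull-back, `max 0 (1 - e (1 - δ_Y P))`. -/
def IsProductBoundary {L : Type} [Field L] [Algebra ℂ L] (U T : IntermediateField ℂ L) (n : ℕ)
    (δV : Place ℂ L → ℝ) (δY : Place ℂ T → ℝ) : Prop :=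
  ∀ Q : Place ℂ L, Divisorial n Q → (∀ z ∈ U, Q.ord z = 0) →
    ((∀ z ∈ T, Q.ord z = 0) → δV Q ≤ 0) ∧
    ∀ (P : Place ℂ T) (e : ℕ), LiesOver Q P e → δV Q ≤ max 0 (1 - e * (1 - δY P))

/-- `ν (K_W + Δ) = -∞`, i.e. `K_W + Δ` is not pseudo-effective: for every divisor `A`, generated by
a finite set `S` of functions, `m (K_W + Δ) + A` has no nonzero section for all large `m`. -/
def NotPseff (K : Type) [Field K] [Algebra ℂ K] (n : ℕ) (δ : Place ℂ K → ℝ) : Prop :=
  ∀ S : Finset K, ∃ m0 : ℕ, ∀ m : ℕ, m0 ≤ m → ¬ HasIndep ℂ K n 1 (PairSec ℂ K n δ S m 1)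

/-- **Effective bounds for pairs dominated by products.** Let `L` be the function field of the product
`V` of the varieties `X` and `Y` with the function fields `U` and `T`, of dimensions `d` and `r + 1`: it
is generated by `U` and `T` and has the transcendence degree `d + (r + 1)`. Let `U` be generated by the
finitely many coordinates in the sets `X i`. Let `K ⊆ L` be the function field of a variety `W`, the
extension being finite of degree `deg f = finrank K L`, and `N₀ ≥ 1`. For every finite set `S` of
functions on `X`, not all zero, there is a finite set `S'` of functions on `W`, equal to `{1}` if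
`S = {1}`, such that the following holds for all effective divisors `Δ` on `W`, whose pull-back `Δ_V`
is at most the product `X × Δ_Y` over the generic point of `X`, for a divisor `Δ_Y` with multiplicities
`0 ≤ δ_Y P ≤ 1`, with `ν(K_Y + Δ_Y) ≤ 0` and a nonzero section `η` of `N₀ (K_Y + Δ_Y)`. Suppose that
`K_W + Δ` is pseudo-effective, and that `S = {1}` or `κ(X) ≥ 0`. Then
`h⁰ (W, m N₀ (deg f) (K_W + Δ) + A') ≥ h⁰ (X, m N₀ D_X + A)` for all `m ≥ 1`, where `A` and `A'` are the
divisors given by `S` and `S'`. -/
theorem result {L : Type} [Field L] [Algebra ℂ L] (U T : IntermediateField ℂ L)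
    [Algebra.EssFiniteType ℂ U] [Algebra.EssFiniteType ℂ T] {d r k N₀ : ℕ} (hN₀ : 1 ≤ N₀)
    (hUT : U ⊔ T = ⊤)
    (hU : Algebra.trdeg ℂ U = d) (hT : Algebra.trdeg ℂ T = (r + 1 : ℕ))
    (hL : Algebra.trdeg ℂ L = (d + (r + 1) : ℕ))
    (X : Fin k → Finset U) (hX : IntermediateField.adjoin ℂ (⋃ i, (X i : Set U)) = ⊤)
    (K : Type) [Field K] [Algebra ℂ K] [Algebra K L] [IsScalarTower ℂ K L] [FiniteDimensional K L]
    (S : Finset U) (hS : ∃ s ∈ S, s ≠ 0) :
    ∃ S' : Finset K, (S = {1} → S' = {1}) ∧
    ∀ (δ : Place ℂ K → ℝ) (δV : Place ℂ L → ℝ) (δY : Place ℂ T → ℝ), (∀ P, 0 ≤ δ P) →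
    IsPullBack δ δV → (∀ P, 0 ≤ δY P) → (∀ P, Divisorial (r + 1) P → δY P ≤ 1) →
    IsProductBoundary U T (d + (r + 1)) δV δY → PairNum ℂ T (r + 1) δY 0 →
    (∃ η : (Fin (r + 1) → Derivation ℂ T T) → T, PairSec ℂ T (r + 1) δY {1} N₀ 0 η ∧
      ∃ D, η D ≠ 0) → ¬ NotPseff K (d + (r + 1)) δ → (S = {1} ∨ HasPluriForm U d) →
    ∀ m N : ℕ, 1 ≤ m → HasIndep ℂ U d N (IsSection K d (m * N₀) X S) →
    HasIndep ℂ K (d + (r + 1)) N
      (PairSec ℂ K (d + (r + 1)) δ S' (m * N₀ * finrank K L) 1) :=
  U192.PE.eff_prod U T hN₀ hUT hU hT hL X hX S hS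

end Pool.Agent.Results.MP_e23cd6_ag.EffectiveProductImages
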