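import Pool.Agent.U976.TBd.KP1

/-!
# Abundance for pairs on Kummer covers of toric bundles over torus quotients, and their minimal models

Let `X = V / Γ` be the quotient of a complex torus (an abelian variety if `X` is projective) of any
dimension by any finite group, which may contain reflections, so that `K_X` may be negative. Let
`Y → X` be a toric bundle: all fibres are the same smooth complete toric variety, and the twists `c i`
are arbitrary line bundles on `X`. Let `F_j` be a section of the `m_j`-th power of the line bundle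
`O_Y(e_j; A_j)` on `Y`, let `Y'` be the Kummer cover of `Y` with the equations `y_j ^ m_j = F_j` (it may
be singular), and let `Δ ≥ 0` be the `ℚ`-divisor `(1 / p) π^* div B` on `Y'`, where `B` is a section of a
line bundle `O_Y(b; M)`. We assume that `(Y', Δ)` is log canonical (for instance klt), or only that the
torus invariant prime divisors over the general fibre of `Y → X` have discrepancy at least `-1` for the
pair `(Y, ∑ (1 - 1 / m_j) div F_j + (1 / p) div B)`, whose pullback to `Y'` is `K_{Y'} + Δ`.

(1) `K_{Y'} + Δ` is nef if and only if it is semiample.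
(2) `K_{Y'} + Δ` is pseudo-effective (it has a singular hermitian metric with semipositive curvature)
if and only if it is `ℚ`-effective.
(3) If it is pseudo-effective then finitely many sections `G_j`, not all zero, of one multiple
`N p (K_{Y'} + Δ)` compute the asymptotic orders of vanishing of the sections of
`q p (K_{Y'} + Δ) + A`, for all line bundles `A`. So for each prime divisor `E` over `Y'` the number
`N σ_E` is `min ord_E G_j`, hence the positive part of the sigma-decomposition of the pullback of
`K_{Y'} + Δ` to a resolution is semiample, and if `(X_0, Δ_0)` is any minimal model of `(Y', Δ)` then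
`K_{X_0} + Δ_0`, whose pullback is this positive part, is semiample: abundance holds for all minimal
models.

`IsTorusQuotient` and `LineBundle` are defined in `Pool.Agent.W594.SYZ.Defs2`; `IsChernForm` and
`IsNefForm` in `Pool.Agent.W594.SYZ.TQDefs`; `IsRamification` in `Pool.Agent.TH735.AQ.MirDefs`;
`IsSmoothFan`, `LinEquiv` and `IsSection` in `Pool.Agent.Q47.TB.Defs`; `Nef` and `SecPow` in
`Pool.Agent.U976.TBd.Defs`; `IsCoverSection`, `canClass` and `CoverSemiample` in
`Pool.Agent.U976.TBd.K1`; `CoverEffective` and `NonzeroOn` in `Pool.Agent.U976.TBd.K3`; `IsLogPsh`,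
`CoverSet`, `IsCoverMetric` and `CoverCurrentPsef` in `Pool.Agent.U976.TBd.CUDefs`; `IsCoverAdjoint`,
`adjClass` and `CoverLC` in `Pool.Agent.U976.TBd.KPDefs`.
-/

set_option autoImplicit false

namespace Pool.Agent.Results.MP_e23cd6_ag.KummerPairs

open Pool.Agent.W594.SYZ2 Pool.Agent.TH735.AQ Q47.TB Pool.Agent.U976.TBd MvPolynomial

/-- Let `p (K_{Y'} + Δ)` be the pullback to `Y'` of the line bundle `O_Y(D; L)`, `D = adjClass e m p b`,
where `H` is the Chern form of `L`.

(1) `K_{Y'} + Δ` is semiample if and only if it is nef on the preimages of the fibres of `Y → X` and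
of the torus invariant sections of `Y → X`.
(2) It has a singular hermitian metric with semipositive curvature current if and only if a positive
multiple of it has a nonzero section.
(3) There are finitely many sections `G j` of a multiple `N`, which are not all zero if the line bundle
has such a metric, and such that for each line bundle `O_Y(dB; LB)` there are a number `K0` and
a continuous function `W`, such that each section `G'` on `Y'` of `O_Y(q D + dB; L ^ q ⊗ LB)`, `q ≥ 0`,
satisfies `|G'| ^ N ≤ C W (∑ |G j|) ^ (q - K0)` with a constant `C`. -/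
theorem result {V : Type*} [NormedAddCommGroup V] [NormedSpace ℂ V] [FiniteDimensional ℂ V]
    (Γ : Subgroup (V ≃ᵃ[ℂ] V)) (hΓ : IsTorusQuotient Γ) (ρ : V → ℂ) (hρ : IsRamification Γ ρ)
    {ι : Type*} [Fintype ι] {n : ℕ} (u : ι → Fin n → ℤ) (S : Set (Set ι)) (hS : IsSmoothFan u S)
    (c : ι → LineBundle Γ) (Hc : ι → V → V → ℂ) (hc : ∀ i, IsChernForm (c i) (Hc i))
    {k : ℕ} (m : Fin k → ℕ) (hm : ∀ j, 1 ≤ m j) (e : Fin k → ι → ℤ) (A : Fin k → LineBundle Γ)
    (F : Fin k → V → MvPolynomial ι ℂ)
    (hF : ∀ j, IsSection u c (fun i => m j * e j i) (fun γ v => (A j).e γ v ^ m j) (F j))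
    (p : ℕ) (b : ι → ℤ) (M : LineBundle Γ) (B : V → MvPolynomial ι ℂ) (hB : IsSection u c b M.e B)
    (hlc : CoverLC S m p F B) (L : LineBundle Γ) (hL : IsCoverAdjoint c A m p ρ M L)
    (H : V → V → ℂ) (hH : IsChernForm L H) :
    (CoverSemiample u S c e A m F (adjClass e m p b) L ↔ Nef u S Hc (adjClass e m p b) H) ∧
    (CoverCurrentPsef u S c e A m F (adjClass e m p b) L ↔
      CoverEffective u S c e A m F (adjClass e m p b) L) ∧
    ∃ (N n0 : ℕ) (G : Fin n0 → V → MvPolynomial ι ℂ), 1 ≤ N ∧
      (∀ j, SecPow u c (adjClass e m p b) L N (G j)) ∧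
      (CoverCurrentPsef u S c e A m F (adjClass e m p b) L → ∃ j v, G j v ≠ 0) ∧
      ∀ (dB : ι → ℤ) (LB : LineBundle Γ) (HB : V → V → ℂ), IsChernForm LB HB →
        ∃ (K0 : ℕ) (W : V × (ι → ℂ) → ℝ), Continuous W ∧
          ∀ (q : ℕ) (G' : V → MvPolynomial (ι ⊕ Fin k) ℂ),
            IsCoverSection u c e A m (fun i => q * adjClass e m p b i + dB i)
              (fun γ v => L.e γ v ^ q * LB.e γ v) G' →
            ∃ C : ℝ, 0 ≤ C ∧ ∀ (v : V) (x : ι → ℂ) (y : Fin k → ℂ),
              (∀ j, y j ^ m j = eval x (F j v)) →
              ‖eval (Sum.elim x y) (G' v)‖ ^ N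
                ≤ C * W (v, x) * (∑ j, ‖eval x (G j v)‖) ^ (q - K0) := by
  have hFt := total_pair_bd hF hB hL
  have hT : ∀ i, totClass e m p i + deg' m * b i - ((p * deg' m : ℕ) : ℤ)
      = deg' m * adjClass e m p b i := fun i => adjClass_eq hm p b i
  refine ⟨adj_semiample_iff hΓ hρ hS hc hm hF hH hFt hT hlc, ⟨fun h =>
    cover_effective_of hS hm hT (adj_eff_of_metric hΓ hρ hS hc hm hF hH hFt hT hlc h),
    metric_of_section hS⟩, adj_sigma hΓ hρ hS hc hm hF hH hFt hT hlc⟩

end Pool.Agent.Results.MP_e23cd6_ag.KummerPairs
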