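import Pool.Agent.U201.MR.Img

/-!
# Pairs on the finite images of varieties with an abelian group of maximal rank

Let `X'` be a normal projective variety of dimension `n ≥ 1` whose group `N¹(X')` of divisors modulo
numerical equivalence has rank `r + 1`, `r ≥ 1` (the Picard number, if `X'` is `ℚ`-factorial), and let
`ℤ ^ r` act on `X'` by pseudo-automorphisms `f_v` of positive entropy (`v ≠ 0`). There is no condition
on the singularities. Let `X' → X` be any finite morphism onto a normal projective variety `X` (more
generally a rational map which is finite in codimension one), for instance `X = X'` or a quotient by a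
finite group; it has nothing to do with the `f_v`, so in general the group does not act on `X`.

Here `Δ` is an arbitrary `ℚ`-divisor on `X`, whose coefficients may be negative and may be larger than
one. The theorem says that `K_X + Δ` satisfies the abundance conjecture in the form `κ = ν`: if it is
pseudo-effective then it is numerically trivial or big, and torsion or big if `X'` has irregularity
zero (then `κ = ν = 0` or `κ = ν = n`). Moreover there is a simple sufficient condition: `K_X + Δ` is
pseudo-effective as soon as `Δ` is at least the branch divisor of `X' → X` (coefficients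
`1 - 1 / e`). Then it is torsion if `Δ` is equal to the branch divisor, and big otherwise. On `X'`
itself `K + Δ` is torsion or ample, if the `f_v` are automorphisms.

Proof. By the formula of Hurwitz (with equality, `can_pull_eq` in `Pool/Agent/U201/MR/Hur.lean`) the
pull back of `K_X + Δ` is linearly equivalent to `K_X'` plus the divisor with the coefficients
`1 - e (1 - Δ P)`. The class of `K_X'` is zero and the rational classes in the pseudo-effective cone of
`X'` are zero or interior (library `Pool/Agent/N110/CC`). A divisor is torsion if its pull back is, by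
the norm (`torsion_down` in `Pool/Agent/U201/MR/Img.lean`).
-/

set_option autoImplicit false

open FF Pool.Agent.W602.GT Pool.Agent.Y172 Pool.Agent.R887 Pool.Agent.N110 Pool.Agent.N110.CC

/-- Let `X'` be a normal projective variety of dimension `n ≥ 1`, with generic point `y'`, and let the
vectors `c' P` be the classes of the prime divisors in `N¹(X') = ℤ ^ (r + 1)`, `r ≥ 1`. Let `ℤ ^ r` act
on `X'` by pseudo-automorphisms `f_v`, given by the automorphisms `φ v = f_v^*` of the function field,
and suppose that the first dynamical degree of `f_v` is greater than `1` for all `v ≠ 0`. Let `X' → X`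
be finite (in codimension one), `X` normal and projective with generic point `y`, given by the
homomorphism `π` of the function fields.

(1) Let `Δ` be a `ℚ`-divisor on `X` such that `K_X + Δ` is pseudo-effective. Then `K_X + Δ` is
numerically trivial (`- (K_X + Δ)` is pseudo-effective, too), and torsion if the irregularity of `X` or
of `X'` is zero; or `K_X + Δ` is big.

(2) Let `Δ` be at least the branch divisor: `e (1 - Δ P) ≤ 1` for all prime divisors `Q` of `X'` over
`P` with ramification index `e`. Then `K_X + Δ` is pseudo-effective. It is numerically trivial if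
`e (1 - Δ P) = 1` for all `Q`. If the irregularity of `X'` is zero then it is torsion in this case,
and big if `e (1 - Δ P) < 1` for some `Q`.

(3) Let the irregularity of `X'` be zero and the `f_v` automorphisms. If `Δ` is a `ℚ`-divisor on `X'`
such that `K_X' + Δ` is pseudo-effective, then `K_X' + Δ` is torsion or ample. -/
theorem Pool.Agent.Results.MP_e23cd6_ag.MaximalRankImagePairs.result
    {K K' : Type} [Field K] [Algebra ℂ K] [Field K'] [Algebra ℂ K'] {N N' n r : ℕ}
    {y : Fin (N + 1) → K} {y' : Fin (N' + 1) → K'} (hy : NormalModel y) (hy' : NormalModel y')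
    (hn : Algebra.trdeg ℂ K = n) (hn' : Algebra.trdeg ℂ K' = n) (hn0 : 0 < n) (hr : 0 < r)
    {c' : Place ℂ K' → Fin (r + 1) → ℤ} (hc' : PicardBasis y' c')
    {φ : (Fin r → ℤ) → (K' ≃ₐ[ℂ] K')} (hφ : ∀ u v, φ (u + v) = φ u * φ v)
    (hps : ∀ v, PseudoAut (φ v) y') (hent : ∀ v, v ≠ 0 → 1 < dynDegree (φ v) y' n 1)
    {π : K →ₐ[ℂ] K'} (hπ : FiniteMap π y y') :
    (∀ Δ : Place ℂ K → ℚ, {P | IsPrimeDivisor y P ∧ Δ P ≠ 0}.Finite → LogPsef y n Δ →
      (LogAntiPsef y n Δ ∧ (IrregularityZero y ∨ IrregularityZero y' → LogTorsion y n Δ)) ∨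
        LogBig y n Δ) ∧
    (∀ Δ : Place ℂ K → ℚ, {P | IsPrimeDivisor y P ∧ Δ P ≠ 0}.Finite →
      (∀ Q P e, IsPrimeDivisor y' Q → LiesOver π Q P e → (e : ℚ) * (1 - Δ P) ≤ 1) →
      LogPsef y n Δ ∧
      ((∀ Q P e, IsPrimeDivisor y' Q → LiesOver π Q P e → (e : ℚ) * (1 - Δ P) = 1) →
        LogAntiPsef y n Δ) ∧
      (IrregularityZero y' →
        ((∀ Q P e, IsPrimeDivisor y' Q → LiesOver π Q P e → (e : ℚ) * (1 - Δ P) = 1) →
          LogTorsion y n Δ) ∧
        ((∃ Q P e, IsPrimeDivisor y' Q ∧ LiesOver π Q P e ∧ (e : ℚ) * (1 - Δ P) < 1) →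
          LogBig y n Δ))) ∧
    (IrregularityZero y' → (∀ v, IsAut (φ v) y') → ∀ Δ : Place ℂ K' → ℚ,
      {P | IsPrimeDivisor y' P ∧ Δ P ≠ 0}.Finite → LogPsef y' n Δ →
      LogTorsion y' n Δ ∨ LogAmple y' n Δ) :=
  ⟨fun _ hΔ => (Pool.Agent.U201.MR.images hy hy' hn hn' hn0 hr hc' hφ hps hent hπ hΔ).1,
    fun _ hΔ => (Pool.Agent.U201.MR.images hy hy' hn hn' hn0 hr hc' hφ hps hent hπ hΔ).2,
    fun hq haut _ hΔ => Pool.Agent.U201.MR.ample_all hy' hn' hn0 hr hc' hφ hent hq haut hΔ⟩
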