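import Pool.Agent.N145.PC.Str4
import Pool.Agent.N145.PC.GT

/-!
# Abundance on the varieties dominated by a product of curves of large gonality

Let `C 0, ..., C n` be smooth projective curves over `ℂ`, `γ i` the gonality of `C i` (or a smaller
number), and let `V = C 0 × ... × C n ⇢ W` be a dominant rational map of finite degree to a variety
`W`, of dimension `n + 1`. The map is not related to the product structure, and it need not be the
quotient by a group. Let `W_s` be the image of `V` in `W × C 0 × ... × C (s - 1)` (so `W_0 = W`), and let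
`d s i` be the degree over `W_s` of the image of `V` in `W_s × C i`. All these numbers are at most the
degree of `V ⇢ W`, and the product of the `d i i` is at most this degree.

(1) Suppose that for some `s` (for example `s = 0`) `2 (d i i) < γ i` for all `i < s`, and that for
all `i ≠ j` with `i, j ≥ s`

`2 (d s i) < γ i`, or `2 (d s j) < γ j`, or `2 deg(V ⇢ W_s) ≤ γ i + γ j - 3`.

Then `K_W` is pseudo-effective iff `κ(W) ≥ dim W - 1`, iff `W` is not uniruled; and if `W` is not
uniruled, then for every normal variety `X` birational to `W` and every effective `ℚ`-divisor `Δ` on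
`X` the Iitaka dimension of `K_X + Δ` is at least `dim X - 1`.

(2) Suppose that `2 (d i i) < γ i` for all `i < n` (no condition on the curve `C n`). Then either
`κ(W) ≥ dim W - 1`, or `K_W` is not pseudo-effective, and `W` has a fibration in rational curves over a
variety of general type of dimension `dim W - 1`.

(3) Suppose that `2 (d i i) < γ i` for all `i ≤ n`. Then the canonical map of `W` is birational: there
are canonical forms, regular at all prime divisors, whose ratios generate the function field.

Meaning for abundance (not part of the Lean proof): let `(X, Δ)` be a klt pair with `X` birational to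
`W` and `K_X + Δ` nef. If `κ(K_X + Δ) ≥ dim X - 1` then `K_X + Δ` is semiample by known theorems. In
(2) this holds for all klt pairs: in the second case by the subadditivity of the logarithmic
Kodaira dimension over a base of general type. There is no condition on the irregularity of `W`.

Proof (`Pool/Agent/N145/PC/`, a development of the starting repository): the traces on `W` of the products of the pullbacks of
differentials on the `C i` are canonical forms. If two generic points of `W` have the same
image under the map given by them, this is a relation between the points of `V` below them which is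
multilinear in the values of the differentials; less than `γ i` points of `C i` impose independent
conditions on the differentials by Riemann-Roch.
-/

set_option autoImplicit false
set_option linter.overlappingInstances false
set_option maxHeartbeats 4000000
set_option synthInstance.maxHeartbeats 400000

open FF Module Pool.Agent Pool.Agent.W602.GT
open Pool.Agent.W619.PQ (IsUniruled)

namespace Pool.Agent.Results.MP_e23cd6_ag.ProductsOfGonalCurves

/-- The number `γ` is at most the gonality of the curve with the function field `F`: all nonconstant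
rational functions on the curve have degree at least `γ`. -/
def LeGonality (γ : ℕ) (F : Type) [Field F] [Algebra ℂ F] : Prop :=
  ∀ y : F, Transcendental ℂ y → γ ≤ finrank (IntermediateField.adjoin ℂ {y}) F

variable {K : Type} [Field K] [Algebra ℂ K] {n : ℕ}

/-- The function field of the image `W_s` of `V` in the product of `W` and the first `s` curves. Here
`K` and `L` are the function fields of `V` and `W`, and `F i` is the one of the `i`-th curve. -/
noncomputable def Img (F : Fin n → IntermediateField ℂ K) (L : Type) [Field L] [Algebra L K]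
    (s : ℕ) : IntermediateField L K :=
  IntermediateField.adjoin L {z | ∃ l : Fin n, l.val < s ∧ z ∈ F l}

/-- The degree over `W_s` of the image of `V` in the product of `W_s` and the `i`-th curve. -/
noncomputable def deg (F : Fin n → IntermediateField ℂ K) (L : Type) [Field L] [Algebra L K]
    (s : ℕ) (i : Fin n) : ℕ :=
  finrank (Img F L s) (IntermediateField.adjoin (Img F L s) (F i : Set K))

/-- Let `S` be the set of the prime divisors of a normal projective variety `X` of dimension `w` with
the function field `L`, and let `δ P` be the coefficient at `P ∈ S` of the `ℚ`-divisor `Δ`. The Iitaka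
dimension of `K_X + Δ` is at least `h`: for some `N > 0` there are sections of `N (K_X + Δ)`, i.e.
`N`-canonical forms whose values at regular vector fields have poles of order at most `N (δ P)` at
`P ∈ S`, with `h` algebraically independent ratios. -/
def IitakaGe (L : Type) [Field L] [Algebra ℂ L] (w : ℕ) (S : Set (Place ℂ L))
    (δ : Place ℂ L → ℚ) (h : ℕ) : Prop :=
  ∃ N : ℕ, 0 < N ∧ ∃ ω : Fin (h + 1) → (Fin w → Derivation ℂ L L) → L,
    (∀ j, IsPluri N (ω j) ∧ ∀ P ∈ S, ∀ D : Fin w → Derivation ℂ L L, (∀ i, DerReg P (D i)) →
      ω j D = 0 ∨ - (N * δ P) ≤ (P.ord (ω j D) : ℚ)) ∧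
    ∃ D, ω 0 D ≠ 0 ∧ AlgebraicIndependent ℂ (fun i : Fin h => ω i.succ D / ω 0 D)

/-- `W` has a fibration in rational curves over a variety `Z` of general type: the function field
`Z` is algebraically closed in `L`, of transcendence degree `h`, its Kodaira
dimension is `h`, and the generic fibre of `W ⇢ Z` is dominated by a projective line over a finite
extension of `Z`. -/
def RuledOverGeneralType (L : Type) [Field L] [Algebra ℂ L] (h : ℕ) : Prop :=
  ∃ Z : IntermediateField ℂ L, (∀ z : L, IsAlgebraic Z z → z ∈ Z) ∧ Algebra.trdeg ℂ Z = h ∧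
    KodGe ℂ Z h (fun _ => False) h ∧ ∃ (M : Type) (_ : Field M) (_ : Algebra Z M),
      Algebra.IsAlgebraic Z M ∧ Nonempty (L →ₐ[Z] RatFunc M)

/-- The canonical map of the varieties of dimension `w` with the function field `L` is birational:
there are canonical forms, regular at all prime divisors, whose ratios generate `L`. -/
def CanonicalMapBirational (L : Type) [Field L] [Algebra ℂ L] (w : ℕ) : Prop :=
  ∃ (I : Type) (ω : I → (Fin w → Derivation ℂ L L) → L) (D : Fin w → Derivation ℂ L L),
    (∀ i, IsPluri 1 (ω i) ∧ ∀ P : Place ℂ L, Divisorial w P → RegAt P (ω i)) ∧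
    (∃ i, ω i D ≠ 0) ∧
    IntermediateField.adjoin ℂ (Set.range fun p : I × I => ω p.1 D / ω p.2 D) = ⊤

/-- one form, regular at all prime divisors, shows that the canonical class is pseudo-effective -/
theorem psef_of {L : Type} [Field L] [Algebra ℂ L] {w h : ℕ}
    (hk : KodGe ℂ L w (fun _ => False) h) : Psef ℂ L w (fun _ => False) := by
  obtain ⟨N, hN, ω, hω, D, hD, -⟩ := hk
  exact psef_of_kodGe ⟨N, hN, fun _ => ω 0, fun _ => hω 0, D, hD,
    algebraicIndependent_empty_type⟩

theorem iitakaGe_of {L : Type} [Field L] [Algebra ℂ L] {w h : ℕ}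
    (hk : KodGe ℂ L w (fun _ => False) h) {S : Set (Place ℂ L)} (hS : ∀ P ∈ S, Divisorial w P)
    {δ : Place ℂ L → ℚ} (hδ : ∀ P ∈ S, 0 ≤ δ P) : IitakaGe L w S δ h := by
  obtain ⟨N, hN, ω, h1, h2⟩ := hk
  refine ⟨N, hN, ω, fun j => ⟨(h1 j).1, fun P hP D hD => ?_⟩, h2⟩
  by_cases h0 : ω j D = 0
  · exact Or.inl h0
  · right
    have h4 := (h1 j).2.2 P (hS P hP) id D hD
    rw [Place.reg_iff _ h0] at h4
    have h5 : (0 : ℚ) ≤ (P.ord (ω j D) : ℚ) := by exact_mod_cast h4
    have h6 : (0 : ℚ) ≤ N * δ P := mul_nonneg (by positivity) (hδ P hP)
    linarith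

/-- **Abundance on the varieties dominated by products of curves of large gonality.** Let `K` be
the function field of a product `V` of `n + 1` curves, i.e. `K` is the compositum of the function
fields `F i` of the curves and has transcendence degree `n + 1`, let `γ i` be at most the gonality of
the `i`-th curve, and let `L ⊆ K` be the function field of a variety `W` such that the extension is
finite. Let `deg F L s i` be the degree over the image `W_s` of `V` in the product of `W` and the first
`s` curves of the image of `V` in the product of `W_s` and the `i`-th curve.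

(1) Suppose that `2 * deg F L i i < γ i` for all `i < s`, and that for any two other curves with the
numbers `i`, `j` one has `2 * deg F L s i < γ i`, or `2 * deg F L s j < γ j`, or the degree `e` of `V`
over `W_s` satisfies `2 e + 3 ≤ γ i + γ j`. Then `K_W` is pseudo-effective iff
`κ(W) ≥ n = dim W - 1`, iff `W` is not uniruled. If these conditions hold, then
for the set `S` of prime divisors of any normal projective variety `X` with the function field `L` and
for any effective `ℚ`-divisor `Δ` on `X` the Iitaka dimension of `K_X + Δ` is at least `dim X - 1`.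

(2) If `2 * deg F L i i < γ i` for all `i < n` then `κ(W) ≥ n`, or `W` has a fibration in rational
curves over a variety of general type of dimension `n` and `K_W` is not pseudo-effective.

(3) If `2 * deg F L i i < γ i` for all `i ≤ n` then the canonical map of `W` is birational. -/
theorem result [Algebra.EssFiniteType ℂ K] (hK : Algebra.trdeg ℂ K = (n + 1 : ℕ))
    (F : Fin (n + 1) → IntermediateField ℂ K) [∀ i, IsFF ℂ (F i)] (hF : ⨆ i, F i = ⊤)
    {γ : Fin (n + 1) → ℕ} (hγ : ∀ i, LeGonality (γ i) (F i)) (L : Type) [Field L] [Algebra ℂ L]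
    [Algebra L K] [IsScalarTower ℂ L K] [FiniteDimensional L K] :
    (∀ s : ℕ, (∀ i : Fin (n + 1), i.val < s → 2 * deg F L i i < γ i) →
      (∀ i j : Fin (n + 1), s ≤ i.val → s ≤ j.val → i ≠ j →
        2 * deg F L s i < γ i ∨ 2 * deg F L s j < γ j ∨
          2 * finrank (Img F L s) K + 3 ≤ γ i + γ j) →
      [Psef ℂ L (n + 1) (fun _ => False), KodGe ℂ L (n + 1) (fun _ => False) n,
        ¬ IsUniruled ℂ L (n + 1)].TFAE ∧
      (Psef ℂ L (n + 1) (fun _ => False) → ∀ S : Set (Place ℂ L),
        (∀ P ∈ S, Divisorial (n + 1) P) → ∀ δ : Place ℂ L → ℚ, (∀ P ∈ S, 0 ≤ δ P) →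
          IitakaGe L (n + 1) S δ n)) ∧
    ((∀ i : Fin (n + 1), i.val < n → 2 * deg F L i i < γ i) →
      KodGe ℂ L (n + 1) (fun _ => False) n ∨
        RuledOverGeneralType L n ∧ ¬ Psef ℂ L (n + 1) (fun _ => False)) ∧
    ((∀ i : Fin (n + 1), 2 * deg F L i i < γ i) → CanonicalMapBirational L (n + 1)) := by
  classical
  have hL : Algebra.trdeg ℂ L = (n + 1 : ℕ) := Pool.Agent.Y184.NT.trdeg_below (K := K) hK
  have hessL : Algebra.EssFiniteType ℂ L := Pool.Agent.TH466.QG.ess_below (K := K)
  have hImg : ∀ s, Img F L s = N145.PC.MF F L (N145.PC.Js (n + 1) s) := by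
    intro s
    unfold Img N145.PC.MF N145.PC.MJ
    congr 1
    ext z
    simp only [Set.mem_ofPred_eq, Set.mem_iUnion, N145.PC.mem_Js, Set.mem_range, exists_prop]
    constructor
    · rintro ⟨l, hl, hz⟩
      exact ⟨l, hl, ⟨z, hz⟩, rfl⟩
    · rintro ⟨l, hl, z, rfl⟩
      exact ⟨l, hl, z.2⟩
  have hdeg : ∀ s i, deg F L s i = finrank (N145.PC.MF F L (N145.PC.Js (n + 1) s))
      (IntermediateField.adjoin (N145.PC.MF F L (N145.PC.Js (n + 1) s)) (F i : Set K)) := by
    intro s i
    unfold deg
    rw [hImg]
  have hmain : ∀ s : ℕ, (∀ i : Fin (n + 1), i.val < s → 2 * deg F L i i < γ i) →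
      (∀ i j : Fin (n + 1), s ≤ i.val → s ≤ j.val → i ≠ j →
        2 * deg F L s i < γ i ∨ 2 * deg F L s j < γ j ∨
          2 * finrank (Img F L s) K + 3 ≤ γ i + γ j) →
      [Psef ℂ L (n + 1) (fun _ => False), KodGe ℂ L (n + 1) (fun _ => False) n,
        ¬ IsUniruled ℂ L (n + 1)].TFAE := by
    intro s hs hpair
    have hd := N145.PC.dichotomy (L := L) hF hK hγ (s := s)
      (fun l hl => by rw [← hdeg]; exact hs l hl)
      (fun i j hi hj hij => by
        rw [← hdeg, ← hdeg, ← hImg]
        exact hpair i j hi hj hij)
    tfae_have 1 → 3 := fun h h' =>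
      (Pool.Agent.W619.Y.uniruled_neg (n + 1) hL h').1 ((Pool.Agent.TH466.QG.psef_iff (n + 1)).1 h)
    tfae_have 3 → 2 := fun h => hd.resolve_left h
    tfae_have 2 → 1 := psef_of
    tfae_finish
  refine ⟨fun s hs hpair => ⟨hmain s hs hpair, fun hp S hS δ hδ =>
    iitakaGe_of (((hmain s hs hpair).out 0 1).1 hp) hS hδ⟩, fun hs => ?_, fun hs => ?_⟩
  · by_cases hk : KodGe ℂ L (n + 1) (fun _ => False) n
    · exact Or.inl hk
    · refine Or.inr ⟨?_, fun hp => hk ?_⟩
      · obtain ⟨Z, h1, h2, h3, h4⟩ := (N145.PC.structure_thm (L := L) hF hK hγ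
          (fun l hl => by rw [← hdeg]; exact hs l hl)).resolve_left hk
        exact ⟨Z, h1, h2, h3, h4⟩
      · refine ((hmain n hs fun i j hi hj hij => ?_).out 0 1).1 hp
        exact absurd (Fin.ext (by omega)) hij
  · obtain ⟨I, ω, D, h1, h2, h3, h4⟩ := N145.PC.birational (L := L) hF hK hγ
      (fun l => by rw [← hdeg]; exact hs l)
    exact ⟨I, ω, D, fun i => ⟨h1 i, h2 i⟩, h3, h4⟩

end Pool.Agent.Results.MP_e23cd6_ag.ProductsOfGonalCurves
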